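import Mathlib
import Pool.Agent.E8helper87.GvasLink

namespace Pool.Agent.Results.MP_675cc6_lc.SemilinearReachH87

/-- `Fires v a b`: starting with counter value `a` and adding the integers of `v` one after the
other, the counter never becomes negative and ends with value `b`. -/
def Fires (v : List ℤ) (a b : ℕ) : Prop :=
  (∀ j ≤ v.length, 0 ≤ (a : ℤ) + (v.take j).sum) ∧ (a : ℤ) + v.sum = b

/-- `Reach G X a b`: some word `v` of integers derived from the nonterminal `X` of the
one-dimensional GVAS `G` (a context-free grammar with integer terminals) leads from `a` to `b`. -/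
def Reach (G : ContextFreeGrammar ℤ) (X : G.NT) (a b : ℕ) : Prop :=
  ∃ v : List ℤ, G.Derives [Symbol.nonterminal X] (v.map Symbol.terminal) ∧ Fires v a b

/-- For every one-dimensional GVAS `G`, thin or not, and every `a`, the reachability set
`R_G(a)` is semilinear. -/
theorem result (G : ContextFreeGrammar ℤ) (a : ℕ) :
    IsSemilinearSet {b : ℕ | Reach G G.initial a b} :=
  Pool.Agent.E8helper87.GvasTree.reach_semilinear [Symbol.nonterminal G.initial] a

end Pool.Agent.Results.MP_675cc6_lc.SemilinearReachH87
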